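import Mathlib
set_option autoImplicit false
open Set Filter Topology MeasureTheory
open scoped ENNReal Manifold ContDiff

/-!
Riemannian metrics on a smooth manifold with boundary of dimension `d + 1`, their volume measures
and their Steklov eigenvalues.

The manifold `Ω` is modelled on the closed half-space `EuclideanHalfSpace (d + 1)` of `ℝ^(d+1)`,
given by `y₀ ≥ 0`.
-/

namespace Pool.Agent.W722.Stk

/-- Euclidean space of dimension `d + 1` -/
abbrev EE (d : ℕ) := EuclideanSpace ℝ (Fin (d + 1))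

/-- Euclidean space of dimension `d` -/
abbrev FF (d : ℕ) := EuclideanSpace ℝ (Fin d)

/-- the inclusion `z ↦ (0, z)` of `ℝ^d` as the boundary of the half-space of dimension `d + 1` -/
def inj {d : ℕ} (z : FF d) : EE d := WithLp.toLp 2 (Fin.cons 0 z.ofLp)

section Charts

variable {d : ℕ} {Ω : Type*} [TopologicalSpace Ω] [ChartedSpace (EuclideanHalfSpace (d + 1)) Ω]

/-- the domain of the chart at `c` -/
def dom (d : ℕ) {Ω : Type*} [TopologicalSpace Ω] [ChartedSpace (EuclideanHalfSpace (d + 1)) Ω]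
    (c : Ω) : Set Ω :=
  (chartAt (EuclideanHalfSpace (d + 1)) c).source

/-- the coordinates of `x` in the chart at `c` -/
noncomputable def crd (d : ℕ) {Ω : Type*} [TopologicalSpace Ω] [ChartedSpace (EuclideanHalfSpace (d + 1)) Ω]
    (c x : Ω) : EE d :=
  extChartAt (𝓡∂ (d + 1)) c x

/-- the image of the chart at `c`, a subset of the half-space -/
def img (d : ℕ) {Ω : Type*} [TopologicalSpace Ω] [ChartedSpace (EuclideanHalfSpace (d + 1)) Ω]
    (c : Ω) : Set (EE d) :=
  (extChartAt (𝓡∂ (d + 1)) c).target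

/-- the point with coordinates `y` in the chart at `c` -/
noncomputable def pt {d : ℕ} {Ω : Type*} [TopologicalSpace Ω] [ChartedSpace (EuclideanHalfSpace (d + 1)) Ω]
    (c : Ω) (y : EE d) : Ω :=
  (extChartAt (𝓡∂ (d + 1)) c).symm y

/-- the boundary of `Ω` -/
def bdry (d : ℕ) (Ω : Type*) [TopologicalSpace Ω] [ChartedSpace (EuclideanHalfSpace (d + 1)) Ω] :
    Set Ω :=
  (𝓡∂ (d + 1)).boundary Ω

/-- `u` is smooth (up to the boundary) -/
def Smooth (d : ℕ) {Ω : Type*} [TopologicalSpace Ω] [ChartedSpace (EuclideanHalfSpace (d + 1)) Ω]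
    (u : Ω → ℝ) : Prop :=
  ContMDiff (𝓡∂ (d + 1)) 𝓘(ℝ, ℝ) ∞ u

/-- the tangent space at `x` -/
def Tan (d : ℕ) {Ω : Type*} [TopologicalSpace Ω] [ChartedSpace (EuclideanHalfSpace (d + 1)) Ω]
    (x : Ω) : Type :=
  TangentSpace (𝓡∂ (d + 1)) x

noncomputable instance (x : Ω) : AddCommGroup (Tan d x) :=
  (inferInstance : AddCommGroup (TangentSpace (𝓡∂ (d + 1)) x))

noncomputable instance (x : Ω) : Module ℝ (Tan d x) :=
  (inferInstance : Module ℝ (TangentSpace (𝓡∂ (d + 1)) x))

/-- the differential of `u` at `x`, evaluated at the tangent vector `v` -/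
noncomputable def dif (u : Ω → ℝ) (x : Ω) (v : Tan d x) : ℝ :=
  mfderiv (𝓡∂ (d + 1)) 𝓘(ℝ, ℝ) u x v

end Charts

variable (d : ℕ) (Ω : Type*) [TopologicalSpace Ω] [ChartedSpace (EuclideanHalfSpace (d + 1)) Ω]
  [IsManifold (𝓡∂ (d + 1)) ∞ Ω]

variable {d Ω} in
/-- the tangent vector at `x` whose coordinates in the chart at `c` are `v` -/
noncomputable def vec (c x : Ω) (v : EE d) : Tan d x :=
  tangentCoordChange (𝓡∂ (d + 1)) c x x v

/-- A smooth Riemannian metric on the manifold with boundary `Ω` of dimension `d + 1`: a scalar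
product on every tangent space, whose coefficients in every chart are smooth up to the boundary. -/
structure RMetric where
  inner : (x : Ω) → LinearMap.BilinForm ℝ (Tan d x)
  symm : ∀ x v w, inner x v w = inner x w v
  pos : ∀ x v, v ≠ 0 → 0 < inner x v v
  smooth : ∀ (c : Ω) (v w : EE d),
    ContDiffOn ℝ ∞ (fun y => inner (pt c y) (vec c (pt c y) v) (vec c (pt c y) w)) (img d c)

variable {d Ω}

/-- the matrix of the metric at `x` in the chart at `c` -/
noncomputable def gram (g : RMetric d Ω) (c x : Ω) : Matrix (Fin (d + 1)) (Fin (d + 1)) ℝ :=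
  Matrix.of fun i j =>
    g.inner x (vec c x (EuclideanSpace.single i 1)) (vec c x (EuclideanSpace.single j 1))

/-- the matrix of the metric induced on the boundary, in the chart at `c`: the boundary is given by
the vanishing of the coordinate number `0` -/
noncomputable def bgram (g : RMetric d Ω) (c x : Ω) : Matrix (Fin d) (Fin d) ℝ :=
  (gram g c x).submatrix Fin.succ Fin.succ

/-- `|du|²_g` at the point `x`, the maximum of `du(v)² / g(v,v)` over the tangent vectors `v` -/
noncomputable def gradSq (g : RMetric d Ω) (u : Ω → ℝ) (x : Ω) : ℝ≥0∞ :=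
  ⨆ v : Tan d x, ENNReal.ofReal (dif u x v ^ 2 / g.inner x v v)

variable [MeasurableSpace Ω]

/-- `μ` is the Riemannian volume measure of `g`: in the chart at any point `c` it is
`√(det (g_ij)) dy` -/
def IsVolume (g : RMetric d Ω) (μ : Measure Ω) : Prop :=
  ∀ c : Ω, ∀ h : EE d → ℝ≥0∞, Measurable h →
    ∫⁻ x in dom d c, h (crd d c x) ∂μ =
      ∫⁻ y in img d c, h y * ENNReal.ofReal (√(gram g c (pt c y)).det)

/-- `ν` is the Riemannian measure on the boundary of the metric induced by `g` (regarded as a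
measure on `Ω` carried by the boundary): in the chart at any point `c` it is the image of
`√(det (g_ij)) dz`, `i, j > 0`, on the hyperplane `y₀ = 0` -/
def IsBdryVolume (g : RMetric d Ω) (ν : Measure Ω) : Prop :=
  ∀ c : Ω, ∀ h : EE d → ℝ≥0∞, Measurable h →
    ∫⁻ x in dom d c, h (crd d c x) ∂ν =
      ∫⁻ z in {z : FF d | inj z ∈ img d c},
        h (inj z) * ENNReal.ofReal (√(bgram g c (pt c (inj z))).det)

/-- the Dirichlet energy `∫_Ω |du|²_g dμ` -/
noncomputable def energy (g : RMetric d Ω) (μ : Measure Ω) (u : Ω → ℝ) : ℝ≥0∞ :=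
  ∫⁻ x, gradSq g u x ∂μ

/-- `∫_Σ u² dν` -/
noncomputable def bsq (ν : Measure Ω) (u : Ω → ℝ) : ℝ≥0∞ := ∫⁻ x, ENNReal.ofReal (u x ^ 2) ∂ν

/-- the Steklov eigenvalue `σ_k` by its variational characterisation: the infimum, over the
`(k+1)`-dimensional spaces `V` of smooth functions on `Ω` (smooth up to the boundary) none of whose
nonzero elements vanishes on the boundary, of the maximum over `V` of the Rayleigh quotient -/
noncomputable def sigma (k : ℕ) (g : RMetric d Ω) (μ ν : Measure Ω) : ℝ≥0∞ :=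
  ⨅ (V : Submodule ℝ (Ω → ℝ)) (_ : Module.finrank ℝ V = k + 1) (_ : ∀ u ∈ V, Smooth d u)
    (_ : ∀ u ∈ V, u ≠ 0 → bsq ν u ≠ 0),
    ⨆ (u ∈ V) (_ : u ≠ 0), energy g μ u / bsq ν u

/-- the normalised eigenvalue `σ_k |Ω|^((1-d)/(d+1)) |Σ|` -/
noncomputable def nsigma (k : ℕ) (g : RMetric d Ω) (μ ν : Measure Ω) : ℝ≥0∞ :=
  sigma k g μ ν * μ univ ^ ((1 - (d : ℝ)) / (d + 1)) * ν univ

end Pool.Agent.W722.Stk
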