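import Mathlib
import Pool.Agent.W722.Stk.Defs
import Pool.Agent.W545.Man.Defs
set_option autoImplicit false
open Set Filter Topology MeasureTheory
open scoped ENNReal Manifold ContDiff

/-! Passage between the two forms of the definitions. -/

namespace Pool.Agent.W722.Stk

variable {d : ℕ} {Ω : Type*} [TopologicalSpace Ω] [ChartedSpace (EuclideanHalfSpace (d + 1)) Ω]
  [IsManifold (𝓡∂ (d + 1)) ∞ Ω]

/-- the continuous form of a bilinear form -/
noncomputable def clm (B : LinearMap.BilinForm ℝ (EE d)) : EE d →L[ℝ] EE d →L[ℝ] ℝ :=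
  LinearMap.toContinuousLinearMap
    ((LinearMap.toContinuousLinearMap (𝕜 := ℝ) (E := EE d) (F' := ℝ)).toLinearMap ∘ₗ B)

theorem clm_apply (B : LinearMap.BilinForm ℝ (EE d)) (v w : EE d) : clm B v w = B v w := rfl

noncomputable def toMan (g : RMetric d Ω) : W545.Man.RMetric d Ω where
  inner x := clm (g.inner x)
  symm x v w := g.symm x v w
  pos x v hv := g.pos x v hv
  smooth c v w := g.smooth c v w

noncomputable def ofMan (g : W545.Man.RMetric d Ω) : RMetric d Ω where
  inner x := LinearMap.mk₂ ℝ (fun v w : EE d => g.inner x v w)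
    (fun v v' w => by
      show g.inner x (v + v') w = _
      erw [map_add]; rfl)
    (fun a v w => by
      show g.inner x (a • v) w = _
      erw [map_smul]; rfl)
    (fun v w w' => by
      show g.inner x v (w + w') = _
      erw [map_add])
    (fun a v w => by
      show g.inner x v (a • w) = _
      erw [map_smul])
  symm x v w := g.symm x v w
  pos x v hv := g.pos x v hv
  smooth c v w := g.smooth c v w

theorem gram_ofMan (g : W545.Man.RMetric d Ω) (c x : Ω) : gram (ofMan g) c x = W545.Man.gram g c x :=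
  rfl

theorem gram_toMan (g : RMetric d Ω) (c x : Ω) : W545.Man.gram (toMan g) c x = gram g c x :=
  rfl

theorem gradSq_ofMan (g : W545.Man.RMetric d Ω) (u : Ω → ℝ) (x : Ω) :
    gradSq (ofMan g) u x = W545.Man.gradSq g u x := rfl

theorem inner_eq_ofMan {g0 : RMetric d Ω} {g : W545.Man.RMetric d Ω} {x : Ω}
    (h : g.inner x = (toMan g0).inner x) : (ofMan g).inner x = g0.inner x := by
  apply LinearMap.ext₂
  intro v w
  show g.inner x v w = g0.inner x v w
  rw [h]
  rfl

variable [MeasurableSpace Ω]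

theorem isVolume_ofMan {g : W545.Man.RMetric d Ω} {μ : Measure Ω} (h : W545.Man.IsVolume g μ) :
    IsVolume (ofMan g) μ := h

theorem isBdryVolume_ofMan {g : W545.Man.RMetric d Ω} {μ : Measure Ω}
    (h : W545.Man.IsBdryVolume g μ) : IsBdryVolume (ofMan g) μ := h

theorem isVolume_toMan {g : RMetric d Ω} {μ : Measure Ω} (h : IsVolume g μ) :
    W545.Man.IsVolume (toMan g) μ := h

theorem isBdryVolume_toMan {g : RMetric d Ω} {μ : Measure Ω} (h : IsBdryVolume g μ) :
    W545.Man.IsBdryVolume (toMan g) μ := h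

theorem energy_ofMan (g : W545.Man.RMetric d Ω) (μ : Measure Ω) (u : Ω → ℝ) :
    energy (ofMan g) μ u = W545.Man.energy g μ u := rfl

/-- the linear map from smooth functions to functions -/
noncomputable def coeL (d : ℕ) (Ω : Type*) [TopologicalSpace Ω] [ChartedSpace (EuclideanHalfSpace (d + 1)) Ω] :
    C^∞⟮𝓡∂ (d + 1), Ω; 𝓘(ℝ, ℝ), ℝ⟯ →ₗ[ℝ] (Ω → ℝ) where
  toFun u := u
  map_add' _ _ := rfl
  map_smul' _ _ := rfl

omit [IsManifold (𝓡∂ (d + 1)) ∞ Ω] [MeasurableSpace Ω] in
theorem coeL_inj : Function.Injective (coeL d Ω) := by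
  intro u v h
  ext x
  exact congrFun h x

theorem sigma_le (k : ℕ) (g : W545.Man.RMetric d Ω) (μ ν : Measure Ω) :
    W545.Man.sigma k g μ ν ≤ sigma k (ofMan g) μ ν := by
  unfold sigma W545.Man.sigma
  refine le_iInf fun V => le_iInf fun hV => le_iInf fun hs => le_iInf fun hd => ?_
  have hr : V ≤ LinearMap.range (coeL d Ω) := by
    intro u hu
    exact ⟨⟨u, hs u hu⟩, rfl⟩
  have hmap : (V.comap (coeL d Ω)).map (coeL d Ω) = V := by
    rw [Submodule.map_comap_eq, inf_eq_right.2 hr]
  have hfin : Module.finrank ℝ (V.comap (coeL d Ω)) = k + 1 := by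
    rw [← hV]
    conv_rhs => rw [← hmap]
    exact (Submodule.equivMapOfInjective (coeL d Ω) coeL_inj _).finrank_eq
  refine iInf_le_of_le (V.comap (coeL d Ω)) (iInf_le_of_le hfin (iInf_le_of_le ?_ ?_))
  · intro u hu hu0
    exact hd _ hu fun h => hu0 (coeL_inj h)
  · refine iSup_le fun u => iSup_le fun hu => iSup_le fun hu0 => ?_
    refine le_iSup_of_le (coeL d Ω u) (le_iSup_of_le hu (le_iSup_of_le ?_ le_rfl))
    exact fun h => hu0 (coeL_inj h)

end Pool.Agent.W722.Stk
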